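import Pool.Agent.helper3.T6R.Spec
import Pool.Agent.helper3.FT.Fin

set_option autoImplicit false

/-!
# Row t6r:RFT
-/

namespace Pool.Agent.T6R

open Finset NumberField Pool.Agent.helper3.FT Pool.Agent.helper47.RA Pool.Agent.T5 Pool.Agent.T6
open scoped nonZeroDivisors

/-- one field -/
lemma RFT_one (hRTL : RTL_stmt) (hRCC : RCC_stmt) (K : Type) [Field K] [NumberField K] (Q : QF K)
    (hD : 0 < Q.D) (U : ℝ) (T : ℕ) (hUT : U ≤ (T : ℝ) ^ 2) (hTD : (T : ℝ) ^ 2 ≤ √(Q.D : ℝ))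
    (f1 : (SD Q.D T).Finite) (f2 : (ZD Q.D T).Finite) :
    (CC Q U).ncard ≤ (SD Q.D T).ncard + 2 * (ZD Q.D T).ncard := by
  refine le_trans (Set.ncard_le_ncard ?_ (Set.toFinite _)) (hRTL K Q T f1 f2)
  intro c hc
  exact ⟨hc.1, hc.2.1, hRCC K Q hD U T hUT hTD c hc⟩

/-- the parameter -/
lemma RFT_T (U : ℝ) (hU : 1 ≤ U) : ∃ T : ℕ, 1 ≤ T ∧ U ≤ (T : ℝ) ^ 2 ∧ (T : ℝ) ≤ 2 * √U := by
  have h1 : 1 ≤ √U := Real.one_le_sqrt.2 hU
  have h2 := Nat.le_ceil (√U)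
  have h3 := Nat.ceil_lt_add_one (a := √U) (by linarith)
  refine ⟨⌈√U⌉₊, ?_, ?_, by linarith⟩
  · rw [Nat.one_le_ceil_iff]
    linarith
  · have h4 : √U ^ 2 ≤ (⌈√U⌉₊ : ℝ) ^ 2 := pow_le_pow_left₀ (by linarith) h2 2
    rwa [Real.sq_sqrt (by linarith)] at h4

theorem RFT (hRTL : RTL_stmt) (hRCC : RCC_stmt) : RFT_stmt := by
  classical
  intro δ hδ hδ1
  obtain ⟨C1, hC1, hS⟩ := count_SS δ hδ
  obtain ⟨C2, hC2, hZ⟩ := count_ZZ δ hδ
  set C : ℝ := (C1 + 4 * C2) * 2 ^ (4 + δ) with hC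
  have hCpos : 0 < C := by positivity
  refine ⟨max (max 1 ((32 : ℝ) ^ (1 / (2 * δ)))) (C ^ (4 / (3 * δ))), ?_⟩
  intro N U hN hU1 hU2
  have hN1 : 1 ≤ N := le_trans (le_trans (le_max_left _ _) (le_max_left _ _)) hN
  have hN0 : 0 < N := by linarith
  have hNa : (32 : ℝ) ^ (1 / (2 * δ)) ≤ N := le_trans (le_trans (le_max_right _ _) (le_max_left _ _)) hN
  have hNb : C ^ (4 / (3 * δ)) ≤ N := le_trans (le_max_right _ _) hN
  have h32 : 32 ≤ N ^ (2 * δ) := by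
    have h := Real.rpow_le_rpow (by positivity) hNa (z := 2 * δ) (by positivity)
    rw [← Real.rpow_mul (by norm_num)] at h
    have e : 1 / (2 * δ) * (2 * δ) = 1 := by field_simp
    rwa [e, Real.rpow_one] at h
  have hCN : C ≤ N ^ (3 * δ / 4) := by
    have h := Real.rpow_le_rpow (by positivity) hNb (z := 3 * δ / 4) (by positivity)
    rw [← Real.rpow_mul hCpos.le] at h
    have e : 4 / (3 * δ) * (3 * δ / 4) = 1 := by field_simp
    rwa [e, Real.rpow_one] at h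
  obtain ⟨T, hT1, hUT, hT2⟩ := RFT_T U hU1
  have hU0 : 0 < U := by linarith
  -- `T² ≤ √(N/2)`
  have hTN : (T : ℝ) ^ 2 ≤ √(N / 2) := by
    have h1 : (T : ℝ) ^ 2 ≤ (2 * √U) ^ 2 := pow_le_pow_left₀ (by positivity) hT2 2
    rw [mul_pow, Real.sq_sqrt hU0.le] at h1
    have h2 : (T : ℝ) ^ 2 ≤ 4 * N ^ (1 / 2 - δ) := by linarith
    refine le_trans h2 ?_
    refine Real.le_sqrt_of_sq_le ?_
    have h3 : (4 * N ^ (1 / 2 - δ)) ^ 2 * N ^ (2 * δ) = 16 * N := by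
      rw [mul_pow, ← Real.rpow_natCast (N ^ (1 / 2 - δ)), ← Real.rpow_mul hN0.le, mul_assoc, ← Real.rpow_add hN0]
      have e : (1 / 2 - δ) * ((2 : ℕ) : ℝ) + 2 * δ = 1 := by push_cast; ring
      rw [e, Real.rpow_one]
      ring
    have h4 : (4 * N ^ (1 / 2 - δ)) ^ 2 * 32 ≤ 16 * N := by
      rw [← h3]
      exact mul_le_mul_of_nonneg_left h32 (by positivity)
    linarith
  obtain ⟨fS, bS⟩ := hS T hT1
  obtain ⟨fZ, bZ⟩ := hZ T hT1
  have hDN : ∀ D ∈ DNR N, IsFund D ∧ 0 < D ∧ N / 2 < (D : ℝ) := by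
    intro D hD
    rw [DNR, Finset.mem_filter, Finset.mem_Icc] at hD
    exact ⟨hD.2.1, by omega, hD.2.2⟩
  obtain ⟨f1, s1⟩ := sum_SD T fS (DNR N) (fun D hD => (hDN D hD).1)
  obtain ⟨f2, s2⟩ := sum_ZD T fZ (DNR N) (fun D hD => (hDN D hD).1)
  have hbound : ∀ D ∈ DNR N, SF (fun _ E => ((CC E.Q U).ncard : ℝ)) D ≤
      (((SD D T).ncard + 2 * (ZD D T).ncard : ℕ) : ℝ) := by
    intro D hD
    unfold SF
    split_ifs with h
    · obtain ⟨hf, hpos, hND⟩ := hDN D hD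
      have hQD := h.some.hD
      have h5 := RFT_one hRTL hRCC h.some.K h.some.Q (by rw [hQD]; exact hpos) U T hUT
        (by rw [hQD]; exact le_trans hTN (Real.sqrt_le_sqrt hND.le))
        (by rw [hQD]; exact f1 D hD) (by rw [hQD]; exact f2 D hD)
      rw [hQD] at h5
      show ((CC h.some.Q U).ncard : ℝ) ≤ _
      exact Nat.cast_le.2 h5
    · positivity
  have hsum : ∑ D ∈ DNR N, ((SD D T).ncard + 2 * (ZD D T).ncard) ≤ (SS T).ncard + 4 * (ZZ T).ncard := by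
    rw [Finset.sum_add_distrib, ← Finset.mul_sum]
    omega
  have hsumR : ∑ D ∈ DNR N, (((SD D T).ncard + 2 * (ZD D T).ncard : ℕ) : ℝ) ≤
      ((SS T).ncard : ℝ) + 4 * (ZZ T).ncard := by
    exact_mod_cast hsum
  have hT4 : (T : ℝ) ^ (4 + δ) ≤ 2 ^ (4 + δ) * N ^ (1 - 7 * δ / 4) := by
    have h1 : √U ≤ N ^ (1 / 4 - δ / 2) := by
      rw [Real.sqrt_eq_rpow]
      have h := Real.rpow_le_rpow hU0.le hU2 (z := (1 / 2 : ℝ)) (by norm_num)
      rw [← Real.rpow_mul hN0.le] at h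
      have e : (1 / 2 - δ) * (1 / 2) = 1 / 4 - δ / 2 := by ring
      rwa [e] at h
    calc (T : ℝ) ^ (4 + δ) ≤ (2 * N ^ (1 / 4 - δ / 2)) ^ (4 + δ) :=
          Real.rpow_le_rpow (by positivity) (by linarith) (by positivity)
      _ = 2 ^ (4 + δ) * N ^ ((1 / 4 - δ / 2) * (4 + δ)) := by
          rw [Real.mul_rpow (by norm_num) (by positivity), ← Real.rpow_mul hN0.le]
      _ ≤ _ := by
          refine mul_le_mul_of_nonneg_left (Real.rpow_le_rpow_of_exponent_le hN1 ?_) (by positivity)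
          nlinarith
  calc ∑ D ∈ DNR N, SF (fun _ E => ((CC E.Q U).ncard : ℝ)) D
      ≤ ∑ D ∈ DNR N, (((SD D T).ncard + 2 * (ZD D T).ncard : ℕ) : ℝ) := Finset.sum_le_sum hbound
    _ ≤ ((SS T).ncard : ℝ) + 4 * (ZZ T).ncard := hsumR
    _ ≤ C1 * (T : ℝ) ^ (4 + δ) + 4 * (C2 * (T : ℝ) ^ (4 + δ)) := by linarith
    _ = (C1 + 4 * C2) * (T : ℝ) ^ (4 + δ) := by ring
    _ ≤ (C1 + 4 * C2) * (2 ^ (4 + δ) * N ^ (1 - 7 * δ / 4)) :=
        mul_le_mul_of_nonneg_left hT4 (by linarith)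
    _ = C * N ^ (1 - 7 * δ / 4) := by rw [hC]; ring
    _ ≤ N ^ (3 * δ / 4) * N ^ (1 - 7 * δ / 4) := mul_le_mul_of_nonneg_right hCN (by positivity)
    _ = N ^ (1 - δ) := by
        rw [← Real.rpow_add hN0]
        have e : 3 * δ / 4 + (1 - 7 * δ / 4) = 1 - δ := by ring
        rw [e]

end Pool.Agent.T6R
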